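import Pool.Agent.Helper62.GX.Stm
import Pool.Agent.Helper18.BM.HW

/-!
# The Hasse-Witt functionals of a general family of cyclic covers with several factors: degrees,
horizontality (the analogue of `Pool/Agent/Helper18/CX/HW.lean`)
-/

set_option autoImplicit false

open Polynomial Matrix Finset

namespace Pool.Agent.Helper13.GX

open Pool.Agent.Helper62.BM Pool.Agent.Helper62.BW Pool.Agent.Helper62.CX Pool.Agent.Helper62.GX
  Pool.Agent.Helper18.BM

/-- The degrees of a product. -/
lemma cdeg_prod {R : Type} [CommRing R] {κ : Type} (s : Finset κ) (f : κ → R[X][X]) (d : κ → ℕ)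
    (h : ∀ i ∈ s, CDeg (f i) (d i)) : CDeg (∏ i ∈ s, f i) (∑ i ∈ s, d i) := by
  classical
  induction s using Finset.induction_on with
  | empty => simpa using (CDeg.one (R := R))
  | insert i s hi ih =>
    rw [Finset.prod_insert hi, Finset.sum_insert hi]
    exact (h i (mem_insert_self _ _)).mul (ih fun j hj => h j (mem_insert_of_mem hj))

theorem g_HWdeg : G_HWdeg := by
  intro κ _ _ R _ p d N T q a ha hq i l
  have h1 : CDeg (X ^ (l : ℕ) * ∏ j, a j ^ q j) (∑ j, q j * T) := by
    have := ((cdeg_X (R := R) 0).pow (l : ℕ)).mul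
      (cdeg_prod univ (fun j => a j ^ q j) (fun j => q j * T)
        fun j _ => CDeg.pow (show CDeg (a j) T from ha j) (q j))
    simpa using this
  refine (h1 _).trans ?_
  calc ∑ j, q j * T ≤ ∑ _j : κ, p * T := Finset.sum_le_sum fun j _ => Nat.mul_le_mul_right _ (hq j)
    _ = T * Fintype.card κ * p := by
      rw [Finset.sum_const, Finset.card_univ, smul_eq_mul]
      ring

/-- The product rule for `∏ a_j ^ (s_j + 1)`. -/
lemma D_prod {B : Type} [CommRing B] {κ : Type} [DecidableEq κ] (D : B → B) (h1 : D 1 = 0)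
    (hmul : ∀ x y, D (x * y) = D x * y + x * D y)
    (hpow : ∀ (x : B) (n : ℕ), D (x ^ (n + 1)) = ((n + 1 : ℕ) : B) * x ^ n * D x)
    (s : κ → ℕ) (a : κ → B) (S : Finset κ) :
    D (∏ j ∈ S, a j ^ (s j + 1)) = (∏ j ∈ S, a j ^ s j) *
      ∑ j ∈ S, ((s j + 1 : ℕ) : B) * D (a j) * ∏ i ∈ S.erase j, a i := by
  induction S using Finset.induction_on with
  | empty => simp [h1]
  | insert c S hc ih =>
    rw [Finset.prod_insert hc, Finset.prod_insert hc, Finset.sum_insert hc, hmul, hpow, ih,
      Finset.erase_insert hc]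
    have e1 : ∑ j ∈ S, ((s j + 1 : ℕ) : B) * D (a j) * ∏ i ∈ (insert c S).erase j, a i =
        a c * ∑ j ∈ S, ((s j + 1 : ℕ) : B) * D (a j) * ∏ i ∈ S.erase j, a i := by
      rw [Finset.mul_sum]
      refine Finset.sum_congr rfl fun j hj => ?_
      have hne : c ≠ j := fun h => hc (h ▸ hj)
      rw [Finset.erase_insert_of_ne hne, Finset.prod_insert (fun h => hc (Finset.mem_of_mem_erase h))]
      ring
    have e2 : ∏ j ∈ S, a j ^ (s j + 1) = (∏ j ∈ S, a j ^ s j) * ∏ j ∈ S, a j := by
      rw [← Finset.prod_mul_distrib]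
      exact Finset.prod_congr rfl fun j _ => pow_succ _ _
    rw [e1, e2, pow_succ]
    ring

theorem g_HWb : G_HWb := by
  intro κ _ _ R _ p _ _ m d N ρ hmp hρ a W P S hR i l
  have hp : p.Prime := Fact.out
  obtain ⟨k, hk⟩ := hmp
  have hm0 : 0 < m := by
    rcases Nat.eq_zero_or_pos m with h0 | h0
    · rw [h0, zero_mul] at hk
      have := hp.two_le
      omega
    · exact h0
  have hdiv : (p - 1) / m = k := by
    rw [hk]
    exact Nat.mul_div_cancel_left k hm0
  have hk0 : 0 < k := by
    rcases Nat.eq_zero_or_pos k with h0 | h0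
    · rw [h0, mul_zero] at hk
      have := hp.two_le
      omega
    · exact h0
  have hpk : p = m * k + 1 := by
    have := hp.two_le
    omega
  have hs0 : ∀ j, ∃ s, ρ j * k = s + 1 := fun j =>
    ⟨ρ j * k - 1, by have := Nat.mul_pos (hρ j).1 hk0; omega⟩
  choose s hs using hs0
  have hmk : (m : R[X][X]) * (k : R[X][X]) = -1 := by
    have h0 : ((m * k + 1 : ℕ) : R[X][X]) = 0 := by
      rw [← hpk]
      exact CharP.cast_eq_zero _ p
    push_cast at h0
    linear_combination h0
  have hrk : ∀ j, ((s j + 1 : ℕ) : R[X][X]) = (ρ j : R[X][X]) * (k : R[X][X]) := by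
    intro j
    rw [← hs j]
    push_cast
    ring
  have hfun : (fun j => ρ j * ((p - 1) / m)) = fun j => s j + 1 := by
    funext j
    rw [hdiv, hs j]
  rw [hfun]
  obtain ⟨hP, hS, hrel⟩ := hR l
  have hda : (fun i => dt (a i)) = fun i => dc (a i) := rfl
  rw [hda] at hrel
  have hN : 0 < N := l.pos
  -- the right hand side
  have hdeg : (P l + derivative (S l)).natDegree < N := by
    refine lt_of_le_of_lt (natDegree_add_le _ _) (max_lt hP ?_)
    refine lt_of_le_of_lt (natDegree_derivative_le (S l)) ?_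
    omega
  have hsum : P l + derivative (S l) =
      ∑ j : Fin N, Polynomial.C ((P l + derivative (S l)).coeff j) * X ^ (j : ℕ) := by
    rw [← Finset.sum_range fun j =>
      Polynomial.C ((P l + derivative (S l)).coeff j) * X ^ j]
    conv_lhs => rw [as_sum_range' (P l + derivative (S l)) N hdeg]
    exact Finset.sum_congr rfl fun j _ => by rw [C_mul_X_pow_eq_monomial]
  have hRHS : ∑ j, YG p (fun j => s j + 1) d N a i j * Mc P S j l =
      -((P l + derivative (S l)) * ∏ j, a j ^ (s j + 1)).coeff (p * ((i : ℕ) + 1) - 1) := by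
    rw [hsum, Finset.sum_mul, finsetSum_coeff, ← Finset.sum_neg_distrib]
    refine Finset.sum_congr rfl fun j _ => ?_
    rw [mul_assoc, coeff_C_mul, YG, Mc, Matrix.of_apply, Matrix.of_apply]
    ring
  -- the left hand side
  have hder : W * derivative (YG p (fun j => s j + 1) d N a i l) =
      (Polynomial.C W * dc (X ^ (l : ℕ) * ∏ j, a j ^ (s j + 1))).coeff
        (p * ((i : ℕ) + 1) - 1) := by
    rw [coeff_C_mul, dc_coeff, YG, Matrix.of_apply]
  have hX : dc ((X : R[X][X]) ^ (l : ℕ)) = 0 := by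
    have := dc_map ((X : R[X]) ^ (l : ℕ))
    rwa [Polynomial.map_pow, Polynomial.map_X] at this
  have h1c : dc (1 : R[X][X]) = 0 := by
    have := dc_map (1 : R[X])
    rwa [Polynomial.map_one] at this
  have hsumL : ∀ b : κ → R[X][X], ∑ j, ((s j + 1 : ℕ) : R[X][X]) * b j * ∏ i ∈ univ.erase j, a i =
      (k : R[X][X]) * LamG ρ a b := by
    intro b
    rw [LamG, Finset.mul_sum]
    refine Finset.sum_congr rfl fun j _ => ?_
    rw [hrk j]
    ring
  have ec : dc (∏ j, a j ^ (s j + 1)) =
      (∏ j, a j ^ s j) * ((k : R[X][X]) * LamG ρ a (fun i => dc (a i))) := by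
    rw [← hsumL]
    exact D_prod dc h1c dc_mul (fun x n => dc_pow x n) s a univ
  have ed : derivative (∏ j, a j ^ (s j + 1)) =
      (∏ j, a j ^ s j) * ((k : R[X][X]) * LamG ρ a (fun i => derivative (a i))) := by
    rw [← hsumL]
    refine D_prod (⇑(derivative : R[X][X] →ₗ[R[X]] R[X][X])) derivative_one
      (fun x y => derivative_mul) (fun x n => ?_) s a univ
    have e7 : (Polynomial.C ((n + 1 : ℕ) : R[X]) : R[X][X]) = ((n + 1 : ℕ) : R[X][X]) :=
      map_natCast _ _
    rw [derivative_pow, e7, Nat.add_sub_cancel]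
  have e2 : ∏ j, a j ^ (s j + 1) = (∏ j, a j ^ s j) * ∏ j, a j := by
    rw [← Finset.prod_mul_distrib]
    exact Finset.prod_congr rfl fun j _ => pow_succ _ _
  have e4 : Polynomial.C W * dc (X ^ (l : ℕ) * ∏ j, a j ^ (s j + 1)) =
      derivative (S l * ∏ j, a j ^ (s j + 1)) -
        (P l + derivative (S l)) * ∏ j, a j ^ (s j + 1) := by
    rw [dc_mul, hX, derivative_mul, ec, ed, e2]
    linear_combination (-(k : R[X][X]) * ∏ j, a j ^ s j) * hrel +
      ((∏ j, a j ^ s j) * (∏ j, a j) * P l) * hmk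
  rw [hder, hRHS, e4, coeff_sub, coeff_der, zero_sub]

end Pool.Agent.Helper13.GX
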